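import Mathlib

namespace Pool.Agent.Results.MP_bcdf42_nt.RationalSolutions

open Polynomial

/-- The multiplicative semigroup generated by the set `P` of primes (including `1`): the positive
integers all of whose prime divisors lie in `P`. -/
def S (P : Set ℕ) : Set ℕ+ := {n | ∀ p : ℕ, p.Prime → p ∣ (n : ℕ) → p ∈ P}

/-- The substitution `q ↦ q^m` on rational functions. -/
noncomputable def subst (m : ℕ+) : RatFunc ℂ →+* RatFunc ℂ :=
  RatFunc.mapRingHom (expand ℂ (m : ℕ)) (by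
    intro f hf
    rw [mem_nonZeroDivisors_iff_ne_zero] at hf
    rw [Submonoid.mem_comap, mem_nonZeroDivisors_iff_ne_zero]
    exact (expand_ne_zero m.pos).mpr hf)

/-- Polynomial sequences with support exactly `S P` that satisfy the functional equation: the
set `Γ(P)`. -/
def IsPolySol (P : Set ℕ) (F : ℕ+ → ℂ[X]) : Prop :=
  (∀ n, F n ≠ 0 ↔ n ∈ S P) ∧ ∀ m n : ℕ+, F (m * n) = F m * expand ℂ (m : ℕ) (F n)

/-- Sequences of rational functions with support exactly `S P` that satisfy the functional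
equation. -/
def IsRatSol (P : Set ℕ) (f : ℕ+ → RatFunc ℂ) : Prop :=
  (∀ n, f n ≠ 0 ↔ n ∈ S P) ∧ ∀ m n : ℕ+, f (m * n) = f m * subst m (f n)

/-- The sequence `f` is the quotient `F / G` of two members of `Γ(P)`, i.e. it lies in
`K(Γ(P))`. -/
def IsQuotient (P : Set ℕ) (f : ℕ+ → RatFunc ℂ) : Prop :=
  ∃ F G : ℕ+ → ℂ[X], IsPolySol P F ∧ IsPolySol P G ∧
    (∀ n ∈ S P, f n = algebraMap ℂ[X] (RatFunc ℂ) (F n) / algebraMap ℂ[X] (RatFunc ℂ) (G n)) ∧
    ∀ n, n ∉ S P → f n = 0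

theorem subst_div (m : ℕ+) (a b : ℂ[X]) :
    subst m (algebraMap ℂ[X] (RatFunc ℂ) a / algebraMap ℂ[X] (RatFunc ℂ) b) =
      algebraMap ℂ[X] (RatFunc ℂ) (expand ℂ (m : ℕ) a) /
        algebraMap ℂ[X] (RatFunc ℂ) (expand ℂ (m : ℕ) b) := by
  unfold subst
  rw [RatFunc.coe_mapRingHom_eq_coe_map]
  exact RatFunc.map_apply_div _ _ _ _

theorem mul_mem_S {P : Set ℕ} {m n : ℕ+} : m * n ∈ S P ↔ m ∈ S P ∧ n ∈ S P := by
  constructor
  · intro h
    constructor
    · intro p hp hd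
      exact h p hp (by rw [PNat.mul_coe]; exact hd.mul_right _)
    · intro p hp hd
      exact h p hp (by rw [PNat.mul_coe]; exact hd.mul_left _)
  · rintro ⟨h1, h2⟩ p hp hd
    rw [PNat.mul_coe] at hd
    rcases hp.dvd_mul.mp hd with h | h
    · exact h1 p hp h
    · exact h2 p hp h

theorem one_mem_S (P : Set ℕ) : (1 : ℕ+) ∈ S P := by
  intro p hp hd
  exact absurd (Nat.dvd_one.mp hd) hp.ne_one

theorem pow_mem_S {P : Set ℕ} {m : ℕ+} (hm : m ∈ S P) (k : ℕ) : m ^ k ∈ S P := by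
  induction k with
  | zero => exact one_mem_S P
  | succ k ih => rw [pow_succ]; exact mul_mem_S.mpr ⟨ih, hm⟩

theorem prime_mem_S {P : Set ℕ} {p : ℕ+} (hp : (p : ℕ).Prime) (hpP : (p : ℕ) ∈ P) : p ∈ S P := by
  intro r hr hd
  rwa [(Nat.prime_dvd_prime_iff_eq hr hp).mp hd]

/-! ### The counterexample -/

/-- `(q^n - 2) / (q - 2)` on `S P`, and zero elsewhere. -/
noncomputable def ex (P : Set ℕ) (n : ℕ+) : RatFunc ℂ := by
  classical
  exact if n ∈ S P then algebraMap ℂ[X] (RatFunc ℂ) (X ^ (n : ℕ) - C 2) /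
    algebraMap ℂ[X] (RatFunc ℂ) (X - C 2) else 0

theorem ex_of_mem {P : Set ℕ} {n : ℕ+} (h : n ∈ S P) :
    ex P n = algebraMap ℂ[X] (RatFunc ℂ) (X ^ (n : ℕ) - C 2) /
      algebraMap ℂ[X] (RatFunc ℂ) (X - C 2) := by
  unfold ex
  exact if_pos h

theorem ex_of_not_mem {P : Set ℕ} {n : ℕ+} (h : n ∉ S P) : ex P n = 0 := by
  unfold ex
  exact if_neg h

theorem alg_ne_zero {a : ℂ[X]} (h : a ≠ 0) : algebraMap ℂ[X] (RatFunc ℂ) a ≠ 0 := by
  rw [Ne, FaithfulSMul.algebraMap_eq_zero_iff]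
  exact h

theorem pow_sub_ne (n : ℕ+) : (X ^ (n : ℕ) - C 2 : ℂ[X]) ≠ 0 := X_pow_sub_C_ne_zero n.pos 2

theorem isRatSol_ex (P : Set ℕ) : IsRatSol P (ex P) := by
  constructor
  · intro n
    by_cases h : n ∈ S P
    · rw [ex_of_mem h]
      exact ⟨fun _ => h, fun _ => div_ne_zero (alg_ne_zero (pow_sub_ne n))
        (alg_ne_zero (X_sub_C_ne_zero 2))⟩
    · rw [ex_of_not_mem h]
      exact ⟨fun h' => absurd rfl h', fun h' => absurd h' h⟩
  · intro m n
    by_cases hmn : m * n ∈ S P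
    · obtain ⟨hm, hn⟩ := mul_mem_S.mp hmn
      rw [ex_of_mem hmn, ex_of_mem hm, ex_of_mem hn, subst_div]
      have h1 : expand ℂ (m : ℕ) (X ^ (n : ℕ) - C 2) = X ^ ((m * n : ℕ+) : ℕ) - C 2 := by
        rw [map_sub, map_pow, expand_X, expand_C, ← pow_mul, PNat.mul_coe]
      have h2 : expand ℂ (m : ℕ) (X - C 2) = X ^ (m : ℕ) - C 2 := by
        rw [map_sub, expand_X, expand_C]
      rw [h1, h2]
      have h3 := alg_ne_zero (pow_sub_ne m)
      field_simp
    · rw [ex_of_not_mem hmn]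
      by_cases hm : m ∈ S P
      · have hn : n ∉ S P := fun hn => hmn (mul_mem_S.mpr ⟨hm, hn⟩)
        rw [ex_of_not_mem hn, map_zero, mul_zero]
      · rw [ex_of_not_mem hm, zero_mul]

theorem poly_eq {P : Set ℕ} {F G : ℕ+ → ℂ[X]} (hG : IsPolySol P G)
    (h : ∀ n ∈ S P, ex P n = algebraMap ℂ[X] (RatFunc ℂ) (F n) /
      algebraMap ℂ[X] (RatFunc ℂ) (G n)) {n : ℕ+} (hn : n ∈ S P) :
    F n * (X - C 2) = (X ^ (n : ℕ) - C 2) * G n := by
  have h1 := h n hn
  rw [ex_of_mem hn, div_eq_div_iff (alg_ne_zero (X_sub_C_ne_zero 2))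
    (alg_ne_zero ((hG.1 n).mpr hn)), ← map_mul, ← map_mul] at h1
  exact ((FaithfulSMul.algebraMap_injective ℂ[X] (RatFunc ℂ)) h1).symm

theorem eval_pow_sol {P : Set ℕ} {F : ℕ+ → ℂ[X]} (hF : IsPolySol P F) {p : ℕ+}
    (x : ℂ) (hx : ∀ i : ℕ, (F p).eval (x ^ ((p : ℕ) ^ i)) ≠ 0) (K : ℕ) :
    (F (p ^ K)).eval x ≠ 0 := by
  induction K with
  | zero =>
      rw [pow_zero]
      have h1 := hF.2 1 1
      have h2 : F 1 ≠ 0 := (hF.1 1).mpr (one_mem_S P)
      rw [mul_one, PNat.one_coe, expand_one] at h1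
      have h3 : F 1 = 1 := by
        have h4 : F 1 * F 1 = F 1 * 1 := by rw [mul_one]; exact h1.symm
        exact mul_left_cancel₀ h2 h4
      rw [h3, eval_one]
      exact one_ne_zero
  | succ K ih =>
      rw [pow_succ, hF.2, eval_mul, expand_eval, PNat.pow_coe]
      exact mul_ne_zero ih (hx K)

theorem not_quotient {P : Set ℕ} {p r : ℕ+} (hp : (p : ℕ).Prime) (hr : (r : ℕ).Prime)
    (hpr : p ≠ r) (hpS : p ∈ S P) (hrS : r ∈ S P) : ¬ IsQuotient P (ex P) := by
  rintro ⟨F, G, hF, hG, hFG, -⟩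
  have hprn : (p : ℕ) ≠ (r : ℕ) := fun h => hpr (PNat.coe_injective h)
  have hcop : Nat.Coprime (p : ℕ) (r : ℕ) := (Nat.coprime_primes hp hr).mpr hprn
  -- the real numbers `2 ^ (1 / r^j)`
  let x : ℕ → ℝ := fun j => (2 : ℝ) ^ ((1 : ℝ) / ((r : ℕ) : ℝ) ^ j)
  have hr0 : (0 : ℝ) < ((r : ℕ) : ℝ) := by exact_mod_cast hr.pos
  have hp1 : (1 : ℝ) < ((p : ℕ) : ℝ) := by exact_mod_cast hp.one_lt
  have hx1 : ∀ j, 1 < x j := fun j => Real.one_lt_rpow (by norm_num) (by positivity)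
  have hxpow : ∀ j i : ℕ, (x j) ^ ((p : ℕ) ^ i) = (2 : ℝ) ^ (((p : ℕ) : ℝ) ^ i / ((r : ℕ) : ℝ) ^ j) := by
    intro j i
    rw [← Real.rpow_natCast, ← Real.rpow_mul (by norm_num)]
    congr 1
    push_cast
    ring
  have hxr : ∀ j, (x j) ^ ((r : ℕ) ^ j) = 2 := by
    intro j
    rw [← Real.rpow_natCast, ← Real.rpow_mul (by norm_num)]
    have : (1 : ℝ) / ((r : ℕ) : ℝ) ^ j * (((r : ℕ) ^ j : ℕ) : ℝ) = 1 := by
      push_cast
      field_simp
    rw [this, Real.rpow_one]
  -- choose `j`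
  have hj : ∃ j : ℕ, 1 ≤ j ∧ ∀ i : ℕ, (F p).eval (((x j : ℝ) : ℂ) ^ ((p : ℕ) ^ i)) ≠ 0 := by
    by_contra hcon
    push Not at hcon
    have hch : ∀ j : ℕ, ∃ i : ℕ, (F p).eval (((x (j + 1) : ℝ) : ℂ) ^ ((p : ℕ) ^ i)) = 0 :=
      fun j => hcon (j + 1) (by omega)
    choose i hi using hch
    have hinj : Function.Injective (fun j : ℕ => ((x (j + 1) : ℝ) : ℂ) ^ ((p : ℕ) ^ (i j))) := by
      intro j j' hjj
      have h1 : (x (j + 1)) ^ ((p : ℕ) ^ (i j)) = (x (j' + 1)) ^ ((p : ℕ) ^ (i j')) := by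
        have : (((x (j + 1)) ^ ((p : ℕ) ^ (i j)) : ℝ) : ℂ) =
            (((x (j' + 1)) ^ ((p : ℕ) ^ (i j')) : ℝ) : ℂ) := by
          push_cast
          exact hjj
        exact Complex.ofReal_injective this
      rw [hxpow, hxpow] at h1
      have h2 : ((p : ℕ) : ℝ) ^ (i j) / ((r : ℕ) : ℝ) ^ (j + 1) =
          ((p : ℕ) : ℝ) ^ (i j') / ((r : ℕ) : ℝ) ^ (j' + 1) := by
        have h3 := congrArg Real.log h1
        rw [Real.log_rpow (by norm_num), Real.log_rpow (by norm_num)] at h3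
        exact mul_right_cancel₀ (Real.log_pos (by norm_num)).ne' h3
      rw [div_eq_div_iff (by positivity) (by positivity)] at h2
      have h4 : (p : ℕ) ^ (i j) * (r : ℕ) ^ (j' + 1) = (p : ℕ) ^ (i j') * (r : ℕ) ^ (j + 1) := by
        exact_mod_cast h2
      have h5 : (r : ℕ) ^ (j + 1) ∣ (r : ℕ) ^ (j' + 1) := by
        have : (r : ℕ) ^ (j + 1) ∣ (p : ℕ) ^ (i j) * (r : ℕ) ^ (j' + 1) := by
          rw [h4]; exact Dvd.intro_left _ rfl
        exact (Nat.Coprime.pow _ _ hcop.symm).dvd_of_dvd_mul_left this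
      have h6 : (r : ℕ) ^ (j' + 1) ∣ (r : ℕ) ^ (j + 1) := by
        have : (r : ℕ) ^ (j' + 1) ∣ (p : ℕ) ^ (i j') * (r : ℕ) ^ (j + 1) := by
          rw [← h4]; exact Dvd.intro_left _ rfl
        exact (Nat.Coprime.pow _ _ hcop.symm).dvd_of_dvd_mul_left this
      have h7 := Nat.pow_right_injective hr.two_le (Nat.dvd_antisymm h5 h6)
      simpa using h7
    have hfin : Set.Finite {z : ℂ | (F p).eval z = 0} := by
      have := (F p).rootSet_finite ℂ
      refine this.subset ?_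
      intro z hz
      rw [mem_rootSet]
      refine ⟨(hF.1 p).mpr hpS, ?_⟩
      simpa [aeval_def] using hz
    exact (Set.infinite_of_injective_forall_mem hinj (fun j => hi j)) hfin
  obtain ⟨j, hj1, hj⟩ := hj
  have hrj : r ^ j ∈ S P := pow_mem_S hrS j
  -- `F (r^j)` vanishes at `x j`
  have hzero : (F (r ^ j)).eval ((x j : ℝ) : ℂ) = 0 := by
    have h1 := poly_eq hG hFG hrj
    have h2 := congrArg (fun Q : ℂ[X] => Q.eval ((x j : ℝ) : ℂ)) h1
    simp only [eval_mul, eval_sub, eval_pow, eval_X, eval_C] at h2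
    have h3 : (((x j : ℝ) : ℂ)) ^ ((r ^ j : ℕ+) : ℕ) = 2 := by
      rw [PNat.pow_coe]
      exact_mod_cast congrArg (fun t : ℝ => (t : ℂ)) (hxr j)
    rw [h3, sub_self, zero_mul] at h2
    rcases mul_eq_zero.mp h2 with h | h
    · exact h
    · exfalso
      have h4 : ((x j : ℝ) : ℂ) = 2 := sub_eq_zero.mp h
      have h5 : x j = 2 := by exact_mod_cast h4
      have h6 : x j < 2 := by
        calc x j < (2 : ℝ) ^ (1 : ℝ) := by
              apply Real.rpow_lt_rpow_of_exponent_lt (by norm_num)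
              rw [div_lt_one (by positivity)]
              apply one_lt_pow₀ (by exact_mod_cast hr.one_lt) (by omega)
          _ = 2 := Real.rpow_one 2
      linarith
  -- choose `K`
  have hK : ∃ K : ℕ, (F (r ^ j)).eval (((x j : ℝ) : ℂ) ^ ((p : ℕ) ^ K)) ≠ 0 := by
    by_contra hcon
    push Not at hcon
    have hinj : Function.Injective (fun K : ℕ => ((x j : ℝ) : ℂ) ^ ((p : ℕ) ^ K)) := by
      intro K K' hKK
      have h1 : (x j) ^ ((p : ℕ) ^ K) = (x j) ^ ((p : ℕ) ^ K') := by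
        have : (((x j) ^ ((p : ℕ) ^ K) : ℝ) : ℂ) = (((x j) ^ ((p : ℕ) ^ K') : ℝ) : ℂ) := by
          push_cast
          exact hKK
        exact Complex.ofReal_injective this
      have h2 := (pow_right_injective₀ (lt_trans zero_lt_one (hx1 j)) (hx1 j).ne') h1
      exact Nat.pow_right_injective hp.two_le h2
    have hfin : Set.Finite {z : ℂ | (F (r ^ j)).eval z = 0} := by
      have := (F (r ^ j)).rootSet_finite ℂ
      refine this.subset ?_
      intro z hz
      rw [mem_rootSet]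
      refine ⟨(hF.1 _).mpr hrj, ?_⟩
      simpa [aeval_def] using hz
    exact (Set.infinite_of_injective_forall_mem hinj (fun K => hcon K)) hfin
  obtain ⟨K, hK⟩ := hK
  have h1 : (F (r ^ j * p ^ K)).eval ((x j : ℝ) : ℂ) = 0 := by
    rw [hF.2, eval_mul, hzero, zero_mul]
  have h2 : (F (p ^ K * r ^ j)).eval ((x j : ℝ) : ℂ) ≠ 0 := by
    rw [hF.2, eval_mul, expand_eval, PNat.pow_coe]
    exact mul_ne_zero (eval_pow_sol hF _ hj K) hK
  rw [mul_comm] at h2
  exact h2 h1

/-! ### At most one prime -/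

/-- The polynomial solution with support the powers of `p` and value `a` at `p`. -/
noncomputable def polySol (p : ℕ+) (a : ℂ[X]) (n : ℕ+) : ℂ[X] := by
  classical
  exact if n ∈ S {(p : ℕ)} then
    ∏ i ∈ Finset.range ((n : ℕ).factorization (p : ℕ)), expand ℂ ((p : ℕ) ^ i) a else 0

theorem eq_pow_of_mem {p : ℕ+} (hp : (p : ℕ).Prime) {n : ℕ+} (hn : n ∈ S {(p : ℕ)}) :
    n = p ^ ((n : ℕ).factorization (p : ℕ)) := by
  apply PNat.coe_injective
  rw [PNat.pow_coe]
  exact Nat.eq_prime_pow_of_unique_prime_dvd n.ne_zero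
    (fun {d} hd hdn => hn d hd hdn) |>.trans (by
      congr 1
      have h := Nat.eq_prime_pow_of_unique_prime_dvd n.ne_zero
        (fun {d} hd hdn => (hn d hd hdn : d = (p : ℕ)))
      conv_rhs => rw [h]
      rw [Nat.Prime.factorization_pow hp]
      simp)

theorem polySol_of_mem {p : ℕ+} {a : ℂ[X]} {n : ℕ+} (h : n ∈ S {(p : ℕ)}) :
    polySol p a n =
      ∏ i ∈ Finset.range ((n : ℕ).factorization (p : ℕ)), expand ℂ ((p : ℕ) ^ i) a := by
  unfold polySol
  exact if_pos h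

theorem polySol_of_not_mem {p : ℕ+} {a : ℂ[X]} {n : ℕ+} (h : n ∉ S {(p : ℕ)}) :
    polySol p a n = 0 := by
  unfold polySol
  exact if_neg h

theorem isPolySol_polySol {p : ℕ+} (hp : (p : ℕ).Prime) {a : ℂ[X]} (ha : a ≠ 0) :
    IsPolySol {(p : ℕ)} (polySol p a) := by
  constructor
  · intro n
    by_cases h : n ∈ S {(p : ℕ)}
    · rw [polySol_of_mem h]
      refine ⟨fun _ => h, fun _ => ?_⟩
      rw [Finset.prod_ne_zero_iff]
      intro i _
      exact (expand_ne_zero (pow_pos p.pos i)).mpr ha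
    · rw [polySol_of_not_mem h]
      exact ⟨fun h' => absurd rfl h', fun h' => absurd h' h⟩
  · intro m n
    by_cases hmn : m * n ∈ S {(p : ℕ)}
    · obtain ⟨hm, hn⟩ := mul_mem_S.mp hmn
      rw [polySol_of_mem hmn, polySol_of_mem hm, polySol_of_mem hn, PNat.mul_coe,
        Nat.factorization_mul m.ne_zero n.ne_zero, Finsupp.add_apply, Finset.prod_range_add,
        map_prod]
      congr 1
      refine Finset.prod_congr rfl fun i _ => ?_
      rw [expand_expand]
      congr 1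
      rw [pow_add]
      have := congrArg (fun t : ℕ+ => (t : ℕ)) (eq_pow_of_mem hp hm)
      simp only [PNat.pow_coe] at this
      rw [← this]
    · rw [polySol_of_not_mem hmn]
      by_cases hm : m ∈ S {(p : ℕ)}
      · have hn : n ∉ S {(p : ℕ)} := fun hn => hmn (mul_mem_S.mpr ⟨hm, hn⟩)
        rw [polySol_of_not_mem hn, map_zero, mul_zero]
      · rw [polySol_of_not_mem hm, zero_mul]

theorem subst_one : subst 1 = RingHom.id (RatFunc ℂ) := by
  apply RingHom.ext
  intro f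
  induction f using RatFunc.induction_on with
  | f a b hb => rw [subst_div]; simp [expand_one]

theorem ratSol_one {P : Set ℕ} {f : ℕ+ → RatFunc ℂ} (hf : IsRatSol P f) : f 1 = 1 := by
  have h1 := hf.2 1 1
  have h2 : f 1 ≠ 0 := (hf.1 1).mpr (one_mem_S P)
  rw [mul_one, subst_one, RingHom.id_apply] at h1
  have h4 : f 1 * f 1 = f 1 * 1 := by rw [mul_one]; exact h1.symm
  exact mul_left_cancel₀ h2 h4

theorem quotient_single {p : ℕ+} (hp : (p : ℕ).Prime) {f : ℕ+ → RatFunc ℂ}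
    (hf : IsRatSol {(p : ℕ)} f) : IsQuotient {(p : ℕ)} f := by
  have hpS : p ∈ S {(p : ℕ)} := prime_mem_S hp rfl
  have hfp : f p ≠ 0 := (hf.1 p).mpr hpS
  have hnum : (f p).num ≠ 0 := RatFunc.num_ne_zero hfp
  have hden : (f p).denom ≠ 0 := RatFunc.denom_ne_zero _
  refine ⟨polySol p (f p).num, polySol p (f p).denom, isPolySol_polySol hp hnum,
    isPolySol_polySol hp hden, ?_, ?_⟩
  · have key : ∀ k : ℕ, f (p ^ k) = algebraMap ℂ[X] (RatFunc ℂ)
        (∏ i ∈ Finset.range k, expand ℂ ((p : ℕ) ^ i) (f p).num) /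
        algebraMap ℂ[X] (RatFunc ℂ)
        (∏ i ∈ Finset.range k, expand ℂ ((p : ℕ) ^ i) (f p).denom) := by
      intro k
      induction k with
      | zero => simp [ratSol_one hf]
      | succ k ih =>
          rw [pow_succ, hf.2, ih, Finset.prod_range_succ, Finset.prod_range_succ, map_mul,
            map_mul, mul_div_mul_comm]
          congr 1
          conv_lhs => rw [← RatFunc.num_div_denom (f p)]
          rw [subst_div, PNat.pow_coe]
    intro n hn
    rw [polySol_of_mem hn, polySol_of_mem hn, ← key]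
    congr 1
    exact eq_pow_of_mem hp hn
  · intro n hn
    by_contra h
    exact hn ((hf.1 n).mp h)

theorem mem_S_empty {n : ℕ+} : n ∈ S (∅ : Set ℕ) ↔ n = 1 := by
  constructor
  · intro h
    by_contra hn
    have h1 : (n : ℕ) ≠ 1 := fun h2 => hn (PNat.coe_injective h2)
    obtain ⟨q, hq, hqn⟩ := Nat.exists_prime_and_dvd h1
    exact h q hq hqn
  · rintro rfl
    exact one_mem_S _

theorem quotient_empty {f : ℕ+ → RatFunc ℂ} (hf : IsRatSol ∅ f) : IsQuotient ∅ f := by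
  classical
  have hE : IsPolySol ∅ (fun n : ℕ+ => if n = 1 then (1 : ℂ[X]) else 0) := by
    constructor
    · intro n
      rw [mem_S_empty]
      by_cases h : n = 1
      · simp [h]
      · simp [h]
    · intro m n
      dsimp only
      by_cases hm : m = 1
      · by_cases hn : n = 1
        · simp [hm, hn]
        · simp [hm, hn]
      · have hmn : m * n ≠ 1 := by
          intro h
          have h2 : (m : ℕ) * (n : ℕ) = 1 := by
            have := congrArg (fun t : ℕ+ => (t : ℕ)) h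
            simpa [PNat.mul_coe] using this
          exact hm (PNat.coe_injective (Nat.eq_one_of_mul_eq_one_right h2))
        rw [if_neg hmn, if_neg hm, zero_mul]
  refine ⟨_, _, hE, hE, ?_, ?_⟩
  · intro n hn
    rw [mem_S_empty] at hn
    subst hn
    simp [ratSol_one hf]
  · intro n hn
    by_contra h
    exact hn ((hf.1 n).mp h)

/-- Every rational solution of the functional equation with support `S P` is a quotient of two
polynomial solutions with support `S P` if and only if `P` has at most one element. -/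
theorem result (P : Set ℕ) (hP : ∀ p ∈ P, p.Prime) :
    (∀ f : ℕ+ → RatFunc ℂ, IsRatSol P f → IsQuotient P f) ↔ P.Subsingleton := by
  constructor
  · intro h
    by_contra hns
    rw [Set.not_subsingleton_iff] at hns
    obtain ⟨p, hp, r, hr, hpr⟩ := hns
    have hp' := hP p hp
    have hr' := hP r hr
    let p' : ℕ+ := ⟨p, hp'.pos⟩
    let r' : ℕ+ := ⟨r, hr'.pos⟩
    exact not_quotient (p := p') (r := r') hp' hr'
      (fun h => hpr (congrArg (fun t : ℕ+ => (t : ℕ)) h))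
      (prime_mem_S hp' hp) (prime_mem_S hr' hr) (h _ (isRatSol_ex P))
  · intro hsub f hf
    rcases hsub.eq_empty_or_singleton with rfl | ⟨p, rfl⟩
    · exact quotient_empty hf
    · have hp := hP p rfl
      exact quotient_single (p := ⟨p, hp.pos⟩) hp hf

end Pool.Agent.Results.MP_bcdf42_nt.RationalSolutions
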